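import Pool.Agent.R649.BT.Node

set_option autoImplicit false

/-!
# The exterior of the 4-chain link: order preserving actions with caps

The four meridians `x, T, y, S` and the four longitudes `l = y T y⁻¹ S`, `z = x y`,
`m = T S⁻¹`, `D = T⁻¹ y⁻¹ T x` of the components of the 4-chain link `8^4_2`.
-/

universe u

namespace Pool.Agent.L7h76.FC

open Pool.Agent.W705.Borr (ivt ivt')
open Pool.Agent.R649.BT (Cap SCap sSup_fix sInf_fix symm_fix)

/-- The relations of the 4-chain link. -/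
structure FSys {G : Type*} [Group G] (x T y S : G) : Prop where
  cT : T * (x * y) = (x * y) * T
  cx : x * (y * T * y⁻¹ * S) = (y * T * y⁻¹ * S) * x
  cy : y * (T * S⁻¹) = (T * S⁻¹) * y
  cS : S * (T⁻¹ * y⁻¹ * T * x) = (T⁻¹ * y⁻¹ * T * x) * S

section group
variable {G : Type*} [Group G] {x T y S : G}

theorem FSys.T' (h : FSys x T y S) : x⁻¹ * T * x = y * T * y⁻¹ := by
  have h1 := h.cT
  calc x⁻¹ * T * x = x⁻¹ * (T * (x * y)) * y⁻¹ := by group
    _ = x⁻¹ * ((x * y) * T) * y⁻¹ := by rw [h1]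
    _ = y * T * y⁻¹ := by group

theorem FSys.conj (h : FSys x T y S) : T⁻¹ * y⁻¹ * T = S⁻¹ * y⁻¹ * S := by
  have h1 := h.cy
  have h2 : y⁻¹ * (T * S⁻¹) = (T * S⁻¹) * y⁻¹ := by
    calc y⁻¹ * (T * S⁻¹) = y⁻¹ * ((T * S⁻¹) * y) * y⁻¹ := by group
      _ = y⁻¹ * (y * (T * S⁻¹)) * y⁻¹ := by rw [h1]
      _ = (T * S⁻¹) * y⁻¹ := by group
  calc T⁻¹ * y⁻¹ * T = T⁻¹ * (y⁻¹ * (T * S⁻¹)) * S := by group
    _ = T⁻¹ * ((T * S⁻¹) * y⁻¹) * S := by rw [h2]
    _ = S⁻¹ * y⁻¹ * S := by group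

theorem FSys.lx (h : FSys x T y S) : y * T * y⁻¹ * S = T * (x * S * x⁻¹) := by
  have h1 := h.cx
  symm
  calc T * (x * S * x⁻¹) = x * (x⁻¹ * T * x * S) * x⁻¹ := by group
    _ = x * (y * T * y⁻¹ * S) * x⁻¹ := by rw [h.T']
    _ = ((y * T * y⁻¹ * S) * x) * x⁻¹ := by rw [h1]
    _ = y * T * y⁻¹ * S := by group

theorem FSys.map {H : Type*} [Group H] (h : FSys x T y S) (f : G →* H) :
    FSys (f x) (f T) (f y) (f S) := by
  refine ⟨?_, ?_, ?_, ?_⟩
  · have := congrArg f h.cT; simpa only [map_mul, map_inv] using this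
  · have := congrArg f h.cx; simpa only [map_mul, map_inv] using this
  · have := congrArg f h.cy; simpa only [map_mul, map_inv] using this
  · have := congrArg f h.cS; simpa only [map_mul, map_inv] using this

end group

section pt
variable {X : Type u} [LinearOrder X]

/-- Two automorphisms move the same points, in the same directions. -/
structure Same (f g : X ≃o X) : Prop where
  up : ∀ v, v < f v ↔ v < g v
  dn : ∀ v, f v < v ↔ g v < v

theorem Same.fix {f g : X ≃o X} (h : Same f g) {v : X} (hv : g v = v) : f v = v := by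
  rcases lt_trichotomy (f v) v with h1 | h1 | h1
  · exact absurd hv ((h.dn v).1 h1).ne
  · exact h1
  · exact absurd hv ((h.up v).1 h1).ne'

theorem Same.dual {f g : X ≃o X} (h : Same f g) : Same (X := Xᵒᵈ) f.dual g.dual :=
  ⟨h.dn, h.up⟩

theorem aii (g : X ≃o X) (v : X) : g (g⁻¹ v) = v := g.apply_symm_apply v

theorem iia (g : X ≃o X) (v : X) : g⁻¹ (g v) = v := g.symm_apply_apply v

theorem inv_lt {g : X ≃o X} {v : X} : g⁻¹ v < v ↔ v < g v := by
  rw [← g.lt_iff_lt, aii]

theorem lt_inv {g : X ≃o X} {v : X} : v < g⁻¹ v ↔ g v < v := by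
  rw [← g.lt_iff_lt, aii]

theorem inv_eq {g : X ≃o X} {v : X} (h : g v = v) : g⁻¹ v = v := by
  rw [← g.injective.eq_iff, aii, h]

/-- The pointwise form of the conditions for the meridian `x` and the longitude `l`. -/
structure PCap (x e : X ≃o X) : Prop where
  up : ∀ v, v < x v → e v ≤ v
  down : ∀ v, x v < v → v ≤ e v
  fix : ∀ v, x v = v → e v = v

theorem PCap.dual {x e : X ≃o X} (h : PCap x e) : PCap (X := Xᵒᵈ) x.dual e.dual :=
  ⟨h.down, h.up, h.fix⟩

theorem FSys.dual {x T y S : X ≃o X} (h : FSys x T y S) :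
    FSys (G := Xᵒᵈ ≃o Xᵒᵈ) x.dual T.dual y.dual S.dual := by
  have key : ∀ f g : X ≃o X, f = g → f.dual = g.dual := fun f g e => by rw [e]
  refine ⟨?_, ?_, ?_, ?_⟩
  · exact key _ _ h.cT
  · exact key _ _ h.cx
  · exact key _ _ h.cy
  · exact key _ _ h.cS

variable {x T y S : X ≃o X}

theorem FSys.lap (h : FSys x T y S) (v : X) :
    (y * T * y⁻¹ * S) v = T (x (S (x⁻¹ v))) := by
  rw [h.lx]; rfl

theorem FSys.Dap (h : FSys x T y S) (v : X) :
    (T⁻¹ * y⁻¹ * T * x) v = S⁻¹ (y⁻¹ (S (x v))) := by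
  rw [h.conj]; rfl

theorem fix_x_aux {f : X} (hT : Same T (x * y)) (hx : f < x f → (y * T * y⁻¹ * S) f ≤ f)
    (hy : y f = f) (hm : (T * S⁻¹) f = f) : ¬ f < x f := by
  intro h1
  have hz : f < (x * y) f := by
    show f < x (y f)
    rw [hy]; exact h1
  have h2 : f < T f := (hT.up f).2 hz
  have h3 : S⁻¹ f = T⁻¹ f := by
    rw [← T.injective.eq_iff, aii]; exact hm
  have h4 : f < S f := by
    rw [← inv_lt, h3, inv_lt]; exact h2
  have h5 : f < (y * T * y⁻¹ * S) f := by
    show f < y (T (y⁻¹ (S f)))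
    have h6 : f < y⁻¹ (S f) := by
      have := (y⁻¹).lt_iff_lt.mpr h4
      rwa [inv_eq hy] at this
    have h7 : f < T (y⁻¹ (S f)) := h2.trans (T.lt_iff_lt.mpr h6)
    have := y.lt_iff_lt.mpr h7
    rwa [hy] at this
  exact absurd h5 (not_lt.mpr (hx h1))

/-- A fixed point of `y` and `m` is a fixed point of `x`. -/
theorem fix_x {f : X} (hT : Same T (x * y)) (hx : PCap x (y * T * y⁻¹ * S))
    (hy : y f = f) (hm : (T * S⁻¹) f = f) : x f = f := by
  rcases lt_trichotomy (x f) f with h1 | h1 | h1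
  · exact absurd h1 (fix_x_aux (X := Xᵒᵈ) (x := x.dual) (T := T.dual) (y := y.dual)
      (S := S.dual) (f := f) hT.dual (hx.down f) hy hm)
  · exact h1
  · exact absurd h1 (fix_x_aux hT (hx.up f) hy hm)

theorem fix_y_aux {f : X} (h : FSys x T y S) (hT : Same T (x * y))
    (hy : f < y f → (T * S⁻¹) f ≤ f) (hx : x f = f) (hl : (y * T * y⁻¹ * S) f = f) :
    ¬ f < y f := by
  intro h1
  have hz : f < (x * y) f := by
    show f < x (y f)
    have := x.lt_iff_lt.mpr h1
    rwa [hx] at this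
  have h2 : f < T f := (hT.up f).2 hz
  have h3 : S⁻¹ f ≤ T⁻¹ f := by
    rw [← T.le_iff_le, aii]; exact hy h1
  have h4 : f < S f := by
    rw [← inv_lt]
    exact lt_of_le_of_lt h3 (inv_lt.2 h2)
  have h5 : f < (y * T * y⁻¹ * S) f := by
    rw [h.lap, inv_eq hx]
    have h6 : f < x (S f) := by
      have := x.lt_iff_lt.mpr h4
      rwa [hx] at this
    exact h2.trans (T.lt_iff_lt.mpr h6)
  exact absurd hl h5.ne'

/-- A fixed point of `x` and `l` is a fixed point of `y`. -/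
theorem fix_y {f : X} (h : FSys x T y S) (hT : Same T (x * y)) (hy : PCap y (T * S⁻¹))
    (hx : x f = f) (hl : (y * T * y⁻¹ * S) f = f) : y f = f := by
  rcases lt_trichotomy (y f) f with h1 | h1 | h1
  · exact absurd h1 (fix_y_aux (X := Xᵒᵈ) (x := x.dual) (T := T.dual) (y := y.dual)
      (S := S.dual) (f := f) h.dual hT.dual (hy.down f) hx hl)
  · exact h1
  · exact absurd h1 (fix_y_aux h hT (hy.up f) hx hl)

theorem fix_T {f : X} (hT : Same T (x * y)) (hx : x f = f) (hy : y f = f) : T f = f := by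
  refine hT.fix ?_
  show x (y f) = f
  rw [hy, hx]

theorem fix_S {f : X} (hT : T f = f) (hm : (T * S⁻¹) f = f) : S f = f := by
  have h3 : S⁻¹ f = f := by
    rw [← T.injective.eq_iff, hT]; exact hm
  have := aii S f
  rwa [h3] at this

/-- The open cusp `x`. -/
theorem open_x {f : X} (h : FSys x T y S) (hT : Same T (x * y)) (hy : PCap y (T * S⁻¹))
    (hx : x f = f) (hl : (y * T * y⁻¹ * S) f = f) :
    x f = f ∧ T f = f ∧ y f = f ∧ S f = f := by
  have h1 := fix_y h hT hy hx hl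
  have h2 := fix_T hT hx h1
  exact ⟨hx, h2, h1, fix_S h2 (hy.fix f h1)⟩

/-- The open cusp `y`. -/
theorem open_y {f : X} (hT : Same T (x * y)) (hx : PCap x (y * T * y⁻¹ * S))
    (hy : y f = f) (hm : (T * S⁻¹) f = f) :
    x f = f ∧ T f = f ∧ y f = f ∧ S f = f := by
  have h1 := fix_x hT hx hy hm
  have h2 := fix_T hT h1 hy
  exact ⟨h1, h2, hy, fix_S h2 hm⟩

theorem open_T_aux {f : X} (hS : Same S (T⁻¹ * y⁻¹ * T * x))
    (hy : y f < f → f ≤ (T * S⁻¹) f) (hTf : T f = f) (hz : (x * y) f = f) : ¬ f < x f := by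
  intro h1
  have h2 : y f = x⁻¹ f := by
    rw [← x.injective.eq_iff, aii]; exact hz
  have h3 : y f < f := by rw [h2, inv_lt]; exact h1
  have h4 : f ≤ S⁻¹ f := by
    have := hy h3
    rw [← T.le_iff_le, hTf]; exact this
  have h5 : ¬ f < S f := by
    rw [← inv_lt, not_lt]; exact h4
  have h6 : ¬ f < (T⁻¹ * y⁻¹ * T * x) f := fun h => h5 ((hS.up f).2 h)
  apply h6
  show f < T⁻¹ (y⁻¹ (T (x f)))
  rw [← T.lt_iff_lt, aii, hTf, ← y.lt_iff_lt, aii]
  refine h3.trans ?_
  have := T.lt_iff_lt.mpr h1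
  rwa [hTf] at this

/-- The open cusp `T`. -/
theorem open_T {f : X} (hS : Same S (T⁻¹ * y⁻¹ * T * x)) (hy : PCap y (T * S⁻¹))
    (hTf : T f = f) (hz : (x * y) f = f) : x f = f ∧ T f = f ∧ y f = f ∧ S f = f := by
  have h1 : x f = f := by
    rcases lt_trichotomy (x f) f with h1 | h1 | h1
    · exact absurd h1 (open_T_aux (X := Xᵒᵈ) (x := x.dual) (T := T.dual) (y := y.dual)
        (S := S.dual) (f := f) hS.dual (hy.up f) hTf hz)
    · exact h1
    · exact absurd h1 (open_T_aux hS (hy.down f) hTf hz)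
  have h2 : y f = f := by
    have : y f = x⁻¹ f := by
      rw [← x.injective.eq_iff, aii]; exact hz
    rw [this]; exact inv_eq h1
  exact ⟨h1, hTf, h2, fix_S hTf (hy.fix f h2)⟩

theorem open_S_aux {f : X} (h : FSys x T y S) (hT : Same T (x * y))
    (hy : f < y f → (T * S⁻¹) f ≤ f) (hSf : S f = f) (hD : (T⁻¹ * y⁻¹ * T * x) f = f) :
    ¬ f < x f := by
  intro h1
  have h2 : y f = S (x f) := by
    rw [h.Dap] at hD
    have h3 : y⁻¹ (S (x f)) = f := by
      have := congrArg S hD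
      rwa [aii, hSf] at this
    have := congrArg y h3
    rw [aii] at this
    exact this.symm
  have h3 : f < y f := by
    rw [h2]
    have := S.lt_iff_lt.mpr h1
    rwa [hSf] at this
  have hz : f < (x * y) f := by
    show f < x (y f)
    exact h1.trans (x.lt_iff_lt.mpr h3)
  have h4 : f < T f := (hT.up f).2 hz
  have h5 : T (S⁻¹ f) ≤ f := hy h3
  rw [inv_eq hSf] at h5
  exact absurd h4 (not_lt.mpr h5)

/-- The open cusp `S`. -/
theorem open_S {f : X} (h : FSys x T y S) (hT : Same T (x * y)) (hy : PCap y (T * S⁻¹))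
    (hSf : S f = f) (hD : (T⁻¹ * y⁻¹ * T * x) f = f) :
    x f = f ∧ T f = f ∧ y f = f ∧ S f = f := by
  have h1 : x f = f := by
    rcases lt_trichotomy (x f) f with h1 | h1 | h1
    · exact absurd h1 (open_S_aux (X := Xᵒᵈ) (x := x.dual) (T := T.dual) (y := y.dual)
        (S := S.dual) (f := f) h.dual hT.dual (hy.down f) hSf hD)
    · exact h1
    · exact absurd h1 (open_S_aux h hT (hy.up f) hSf hD)
  have h2 : y f = f := by
    rw [h.Dap, h1, hSf] at hD
    have h3 : y⁻¹ f = f := by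
      have := congrArg S hD
      rwa [aii, hSf] at this
    have := aii y f
    rwa [h3] at this
  exact ⟨h1, fix_T hT h1 h2, h2, hSf⟩

end pt

section comp
variable {X : Type u} [CompleteLinearOrder X] {x T y S : X ≃o X}

theorem not_up (h : FSys x T y S) (hT : Same T (x * y)) (hS : Same S (T⁻¹ * y⁻¹ * T * x))
    (hx : PCap x (y * T * y⁻¹ * S)) (hy : PCap y (T * S⁻¹)) {s : X} : ¬ s < x s := by
  intro hs
  set A : Set X := {f | f ≤ s ∧ x f = f} with hA
  set B : Set X := {f | s ≤ f ∧ x f = f} with hB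
  set α := sSup A with hα
  set β := sInf B with hβ
  have xα : x α = α := by
    refine sSup_fix x (fun w hw => ?_) (fun w hw => ?_)
    · rw [hw.2]; exact hw
    · rw [symm_fix hw.2]; exact hw
  have xβ : x β = β := by
    refine sInf_fix x (fun w hw => ?_) (fun w hw => ?_)
    · rw [hw.2]; exact hw
    · rw [symm_fix hw.2]; exact hw
  have hsx : x s ≠ s := ne_of_gt hs
  have hαs : α < s := by
    refine lt_of_le_of_ne (sSup_le fun v hv => hv.1) ?_
    intro e; rw [e] at xα; exact hsx xα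
  have hsβ : s < β := by
    refine lt_of_le_of_ne (le_sInf fun v hv => hv.1) ?_
    intro e; rw [← e] at xβ; exact hsx xβ
  have hJx : ∀ v, α < v → v < β → x v ≠ v := by
    intro v h1 h2 e
    rcases le_total v s with h3 | h3
    · exact absurd (le_sSup (show v ∈ A from ⟨h3, e⟩)) (not_le.mpr h1)
    · exact absurd (sInf_le (show v ∈ B from ⟨h3, e⟩)) (not_le.mpr h2)
  have hJy : ∀ v, α < v → v < β → y v ≠ v := fun v h1 h2 e =>
    hJx v h1 h2 (fix_x hT hx e (hy.fix v e))
  obtain ⟨-, Tα, yα, Sα⟩ := open_x h hT hy xα (hx.fix α xα)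
  obtain ⟨-, Tβ, yβ, Sβ⟩ := open_x h hT hy xβ (hx.fix β xβ)
  -- signs
  have pos : ∀ g : X ≃o X, (∀ v, α < v → v < β → g v ≠ v) → s < g s →
      ∀ v, α < v → v < β → v < g v := by
    intro g hg hgs v h1 h2
    by_contra hcon
    rw [not_lt] at hcon
    rcases le_total v s with h3 | h3
    · obtain ⟨t, t1, t2, t3⟩ := ivt g h3 hcon hgs
      exact hg t (lt_of_lt_of_le h1 t1) (t2.trans hsβ) t3
    · obtain ⟨t, t1, t2, t3⟩ := ivt' g h3 hcon hgs
      exact hg t (hαs.trans t1) (lt_of_le_of_lt t2 h2) t3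
  have inJ : ∀ g : X ≃o X, g α = α → g β = β → ∀ v, α < v → v < β → α < g v ∧ g v < β := by
    intro g ga gb v h1 h2
    constructor
    · have := g.lt_iff_lt.mpr h1; rwa [ga] at this
    · have := g.lt_iff_lt.mpr h2; rwa [gb] at this
  have px := pos x hJx hs
  rcases lt_or_gt_of_ne (hJy s hαs hsβ) with hys | hys
  · -- `y` moves down
    have ny : ∀ v, α < v → v < β → y v < v := by
      intro v h1 h2
      have h3 := pos y⁻¹ (fun v h1 h2 e => hJy v h1 h2 (by
        have := aii y v; rwa [e] at this)) (lt_inv.2 hys) v h1 h2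
      exact lt_inv.1 h3
    have pS : ∀ w, α < w → w < β → w < S w := by
      intro w w1 w2
      refine (hS.up w).2 ?_
      show w < T⁻¹ (y⁻¹ (T (x w)))
      rw [← T.lt_iff_lt, aii]
      have a1 := inJ x xα xβ w w1 w2
      have a2 := inJ T Tα Tβ (x w) a1.1 a1.2
      have a3 : T (x w) < y⁻¹ (T (x w)) := lt_inv.2 (ny _ a2.1 a2.2)
      exact (T.lt_iff_lt.mpr (px w w1 w2)).trans a3
    -- at the point `s`
    have b1 : S s ≤ T s := by
      have c1 := inJ S Sα Sβ s hαs hsβ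
      have c2 : S s ≤ T (S⁻¹ (S s)) := hy.down (S s) (ny _ c1.1 c1.2)
      rwa [iia] at c2
    have b2 : s < T s := (pS s hαs hsβ).trans_le b1
    have b3 : s < (y * T * y⁻¹ * S) s := by
      rw [h.lap]
      have c1 := inJ x⁻¹ (inv_eq xα) (inv_eq xβ) s hαs hsβ
      have c2 : x⁻¹ s < S (x⁻¹ s) := pS _ c1.1 c1.2
      have c3 : s < x (S (x⁻¹ s)) := by
        have := x.lt_iff_lt.mpr c2
        rwa [aii] at this
      exact b2.trans (T.lt_iff_lt.mpr c3)
    exact absurd b3 (not_lt.mpr (hx.up s hs))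
  · -- `y` moves up
    have py := pos y hJy hys
    have pT : ∀ w, α < w → w < β → w < T w := by
      intro w w1 w2
      refine (hT.up w).2 ?_
      show w < x (y w)
      have a1 := inJ y yα yβ w w1 w2
      exact (py w w1 w2).trans (px _ a1.1 a1.2)
    have b1 : T s ≤ S s := by
      have c1 := inJ S Sα Sβ s hαs hsβ
      have c2 : T (S⁻¹ (S s)) ≤ S s := hy.up (S s) (py _ c1.1 c1.2)
      rwa [iia] at c2
    have b2 : s < S s := (pT s hαs hsβ).trans_le b1
    have b3 : s < (y * T * y⁻¹ * S) s := by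
      show s < y (T (y⁻¹ (S s)))
      rw [← (y⁻¹).lt_iff_lt, iia]
      have c1 := inJ S Sα Sβ s hαs hsβ
      have c2 := inJ y⁻¹ (inv_eq yα) (inv_eq yβ) (S s) c1.1 c1.2
      exact ((y⁻¹).lt_iff_lt.mpr b2).trans (pT _ c2.1 c2.2)
    exact absurd b3 (not_lt.mpr (hx.up s hs))

/-- All cusps capped. -/
theorem closed (h : FSys x T y S) (hT : Same T (x * y)) (hS : Same S (T⁻¹ * y⁻¹ * T * x))
    (hx : PCap x (y * T * y⁻¹ * S)) (hy : PCap y (T * S⁻¹)) (s : X) :
    x s = s ∧ T s = s ∧ y s = s ∧ S s = s := by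
  have h1 : x s = s := by
    rcases lt_trichotomy (x s) s with h1 | h1 | h1
    · exact absurd h1 (not_up (X := Xᵒᵈ) (x := x.dual) (T := T.dual) (y := y.dual)
        (S := S.dual) h.dual hT.dual hS.dual hx.dual hy.dual (s := s))
    · exact h1
    · exact absurd h1 (not_up h hT hS hx hy)
  exact open_x h hT hy h1 (hx.fix s h1)

end comp

end Pool.Agent.L7h76.FC
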