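import Pool.Agent.L7h76.FC.Dyn

set_option autoImplicit false

/-!
# The exterior of the 4-chain link: the second system of intervals

The meridians `x`, `y` have slopes at least `-1` and the slopes of `T`, `S` are in `[-1, 0)`.
-/

universe u

namespace Pool.Agent.L7h76.FC

open Pool.Agent.W705.Borr (ivt ivt')
open Pool.Agent.R649.BT (Cap SCap sSup_fix sInf_fix symm_fix)

section group
variable {G : Type*} [Group G] {x T y S : G}

/-- The symmetry of the link that exchanges `x` and `y`. -/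
theorem FSys.swap (h : FSys x T y S) : FSys y (y * T * y⁻¹) x S⁻¹ := by
  have hT' := h.T'
  have hm : x * (y * T * y⁻¹) * x⁻¹ * S⁻¹ = T * S⁻¹ := by rw [← hT']; group
  have hD : (y * T * y⁻¹)⁻¹ * x⁻¹ * (y * T * y⁻¹) * y = (T⁻¹ * y⁻¹ * T * x)⁻¹ := by
    calc (y * T * y⁻¹)⁻¹ * x⁻¹ * (y * T * y⁻¹) * y
        = (x⁻¹ * T * x)⁻¹ * x⁻¹ * (y * T * y⁻¹) * y := by rw [hT']
      _ = (T⁻¹ * y⁻¹ * T * x)⁻¹ := by group
  have hl : y * T * y⁻¹ * S⁻¹⁻¹ = y * T * y⁻¹ * S := by rw [inv_inv]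
  refine ⟨?_, ?_, ?_, ?_⟩
  · calc y * T * y⁻¹ * (y * x) = (y * T * y⁻¹) * y * x := by group
      _ = y * (T * (x * y)) * y⁻¹ := by
          have : y * T * y⁻¹ * y * x = y * (T * (x * y)) * y⁻¹ := by group
          exact this
      _ = y * ((x * y) * T) * y⁻¹ := by rw [h.cT]
      _ = y * x * (y * T * y⁻¹) := by group
  · rw [hm]; exact h.cy
  · rw [hl]; exact h.cx
  · rw [hD]
    have h1 := h.cS
    generalize T⁻¹ * y⁻¹ * T * x = D at h1 ⊢
    calc S⁻¹ * D⁻¹ = (D * S)⁻¹ := by group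
      _ = (S * D)⁻¹ := by rw [h1]
      _ = D⁻¹ * S⁻¹ := by group

theorem FSys.swap_l (h : FSys x T y S) :
    x * (y * T * y⁻¹) * x⁻¹ * S⁻¹ = T * S⁻¹ := by rw [← h.T']; group

theorem FSys.swap_D (h : FSys x T y S) :
    (y * T * y⁻¹)⁻¹ * x⁻¹ * (y * T * y⁻¹) * y = (T⁻¹ * y⁻¹ * T * x)⁻¹ := by
  calc (y * T * y⁻¹)⁻¹ * x⁻¹ * (y * T * y⁻¹) * y
      = (x⁻¹ * T * x)⁻¹ * x⁻¹ * (y * T * y⁻¹) * y := by rw [h.T']
    _ = (T⁻¹ * y⁻¹ * T * x)⁻¹ := by group

end group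

section pt
variable {X : Type u} [CompleteLinearOrder X]

/-- `T` moves the points in the same direction as `z`, at least as far. -/
structure Dmn (T z : X ≃o X) : Prop where
  up : ∀ v, v < z v → z v ≤ T v
  dn : ∀ v, z v < v → T v ≤ z v
  fix : ∀ v, z v = v → T v = v

/-- Where `x` moves up, `l` is at most `x`. -/
structure Low (x l : X ≃o X) : Prop where
  up : ∀ v, v < x v → l v ≤ x v
  dn : ∀ v, x v < v → x v ≤ l v
  fix : ∀ v, x v = v → l v = v

theorem Dmn.dual {T z : X ≃o X} (h : Dmn T z) : Dmn (X := Xᵒᵈ) T.dual z.dual :=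
  ⟨h.dn, h.up, h.fix⟩

theorem Low.dual {x l : X ≃o X} (h : Low x l) : Low (X := Xᵒᵈ) x.dual l.dual :=
  ⟨h.dn, h.up, h.fix⟩

theorem Dmn.up_iff {T z : X ≃o X} (h : Dmn T z) {v : X} (hv : v < T v) : v < z v := by
  rcases lt_trichotomy (z v) v with h1 | h1 | h1
  · exact absurd hv (not_lt.mpr ((h.dn v h1).trans h1.le))
  · exact absurd (h.fix v h1) hv.ne'
  · exact h1

theorem Dmn.dn_iff {T z : X ≃o X} (h : Dmn T z) {v : X} (hv : T v < v) : z v < v := by
  rcases lt_trichotomy (z v) v with h1 | h1 | h1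
  · exact h1
  · exact absurd (h.fix v h1) hv.ne
  · exact absurd hv (not_lt.mpr (h1.le.trans (h.up v h1)))

theorem Dmn.fix_iff {T z : X ≃o X} (h : Dmn T z) {v : X} (hv : T v = v) : z v = v := by
  rcases lt_trichotomy (z v) v with h1 | h1 | h1
  · exact absurd hv ((h.dn v h1).trans_lt h1).ne
  · exact h1
  · exact absurd hv (h1.trans_le (h.up v h1)).ne'

theorem Dmn.conj {T z : X ≃o X} (h : Dmn T z) (g : X ≃o X) :
    Dmn (g * T * g⁻¹) (g * z * g⁻¹) := by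
  refine ⟨fun v hv => ?_, fun v hv => ?_, fun v hv => ?_⟩
  · change v < g (z (g⁻¹ v)) at hv
    show g (z (g⁻¹ v)) ≤ g (T (g⁻¹ v))
    refine g.monotone (h.up _ ?_)
    rwa [← g.lt_iff_lt, aii]
  · change g (z (g⁻¹ v)) < v at hv
    show g (T (g⁻¹ v)) ≤ g (z (g⁻¹ v))
    refine g.monotone (h.dn _ ?_)
    rwa [← g.lt_iff_lt, aii]
  · change g (z (g⁻¹ v)) = v at hv
    show g (T (g⁻¹ v)) = v
    have : z (g⁻¹ v) = g⁻¹ v := by rw [← g.injective.eq_iff, aii, hv]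
    rw [h.fix _ this, aii]

theorem Dmn.inv {T z : X ≃o X} (h : Dmn T z) : Dmn T⁻¹ z⁻¹ := by
  refine ⟨fun v hv => ?_, fun v hv => ?_, fun v hv => ?_⟩
  · have h1 : z (z⁻¹ v) < z⁻¹ v := by rwa [aii]
    have h2 := h.dn _ h1
    rw [aii] at h2
    rw [← T.le_iff_le, aii]; exact h2
  · have h1 : z⁻¹ v < z (z⁻¹ v) := by rwa [aii]
    have h2 := h.up _ h1
    rw [aii] at h2
    rw [← T.le_iff_le, aii]; exact h2
  · have h1 : z v = v := by
      have := congrArg z hv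
      rw [aii] at this; exact this.symm
    exact inv_eq (h.fix v h1)

variable {x T y S : X ≃o X}

theorem nofixB {f : X} (h : FSys x T y S) (hT : Dmn T (x * y))
    (hS : Dmn S (T⁻¹ * y⁻¹ * T * x)) (hx : f < x f → (y * T * y⁻¹ * S) f ≤ x f)
    (hy : y f = f) (hm : (T * S⁻¹) f = f) : ¬ f < x f := by
  intro h1
  have hyi : y⁻¹ f = f := inv_eq hy
  have hz : f < (x * y) f := by
    show f < x (y f)
    rw [hy]; exact h1
  have hTz : x f ≤ T f := by
    have := hT.up f hz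
    change x (y f) ≤ T f at this
    rwa [hy] at this
  have hTf : T⁻¹ f < f := by
    rw [inv_lt]; exact h1.trans_le hTz
  have hST : S⁻¹ f = T⁻¹ f := by
    rw [← T.injective.eq_iff, aii]; exact hm
  have hl := hx h1
  have hcx := h.cx
  set l := y * T * y⁻¹ * S with hldef
  have hlS : ∀ v, l (S⁻¹ v) = y (T (y⁻¹ v)) := by
    intro v
    show y (T (y⁻¹ (S (S⁻¹ v)))) = _
    rw [aii]
  have hlg2 : y (T f) < T f := by
    have a1 : l (S⁻¹ f) < l f := by
      rw [l.lt_iff_lt, hST]; exact hTf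
    rw [hlS, hyi] at a1
    exact a1.trans_le (hl.trans hTz)
  -- `x⁻¹ f ≤ l⁻¹ f`
  have hxl : x⁻¹ f ≤ l⁻¹ f := by
    rw [← l.le_iff_le, aii, ← x.le_iff_le]
    have a1 : x (l (x⁻¹ f)) = l f := by
      have := DFunLike.congr_fun hcx (x⁻¹ f)
      change x (l (x⁻¹ f)) = l (x (x⁻¹ f)) at this
      rwa [aii] at this
    rw [a1]; exact hl
  have hSl : ∀ u, S⁻¹ u = l⁻¹ (x⁻¹ (T (x u))) := by
    intro u
    rw [← l.injective.eq_iff, aii, hlS]
    have := DFunLike.congr_fun h.T' u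
    exact this.symm
  have step : ∀ u, x⁻¹ f < u → x⁻¹ f < S⁻¹ u := by
    intro u hu
    rw [hSl]
    refine lt_of_le_of_lt hxl ?_
    rw [(l⁻¹).lt_iff_lt, ← x.lt_iff_lt, aii]
    refine lt_of_le_of_lt hTz ?_
    rw [T.lt_iff_lt]
    have := x.lt_iff_lt.mpr hu
    rwa [aii] at this
  have hxf : x⁻¹ f < f := inv_lt.2 h1
  have iter : ∀ k : ℕ, x⁻¹ f < (S⁻¹ ^ k) f := by
    intro k
    induction k with
    | zero => exact hxf
    | succ k ih =>
      rw [pow_succ']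
      exact step _ ih
  have hD : (T⁻¹ * y⁻¹ * T * x)⁻¹ f < x⁻¹ f := by
    have a1 : (T⁻¹ * y⁻¹ * T * x)⁻¹ = x⁻¹ * T⁻¹ * y * T := by group
    rw [a1]
    show x⁻¹ (T⁻¹ (y (T f))) < x⁻¹ f
    rw [(x⁻¹).lt_iff_lt, ← T.lt_iff_lt, aii]
    exact hlg2
  have hSf : S⁻¹ f < f := by rw [hST]; exact hTf
  set W : Set X := {w | ∃ n : ℤ, w = (S ^ n) f} with hW
  have hWx : ∀ w ∈ W, x⁻¹ f ≤ w := by
    rintro w ⟨n, rfl⟩
    rcases le_total 0 n with hn | hn
    · obtain ⟨k, rfl⟩ := Int.eq_ofNat_of_zero_le hn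
      have a1 : ∀ k : ℕ, f ≤ (S ^ k) f := by
        intro k
        induction k with
        | zero => exact le_rfl
        | succ k ih =>
          rw [pow_succ']
          show f ≤ S ((S ^ k) f)
          exact (inv_lt.1 hSf).le.trans (S.monotone ih)
      have := a1 k
      show x⁻¹ f ≤ (S ^ (k : ℤ)) f
      rw [zpow_natCast]
      exact hxf.le.trans this
    · obtain ⟨k, hk⟩ := Int.eq_ofNat_of_zero_le (show 0 ≤ -n by omega)
      have e : S ^ n = S⁻¹ ^ k := by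
        rw [← zpow_natCast, ← hk, inv_zpow, zpow_neg, inv_inv]
      rw [e]; exact (iter k).le
  have hWS : S (sInf W) = sInf W := by
    refine sInf_fix S ?_ ?_
    · rintro w ⟨n, rfl⟩
      exact ⟨n + 1, by rw [add_comm, zpow_add, zpow_one]; rfl⟩
    · rintro w ⟨n, rfl⟩
      refine ⟨n - 1, ?_⟩
      rw [sub_eq_add_neg, add_comm, zpow_add, zpow_neg, zpow_one]; rfl
  have hDt := hS.fix_iff hWS
  have a1 : x⁻¹ f ≤ sInf W := le_sInf hWx
  have a2 : sInf W < f := by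
    refine lt_of_le_of_lt (sInf_le ⟨-1, ?_⟩) hSf
    rw [zpow_neg, zpow_one]
  have a3 : f < (T⁻¹ * y⁻¹ * T * x) (sInf W) := by
    have := (T⁻¹ * y⁻¹ * T * x).lt_iff_lt.mpr (hD.trans_le a1)
    rwa [aii] at this
  rw [hDt] at a3
  exact absurd a3 (not_lt.mpr a2.le)

/-- A fixed point of `y` and `m` is a fixed point of `x`. -/
theorem fix_xB {f : X} (h : FSys x T y S) (hT : Dmn T (x * y))
    (hS : Dmn S (T⁻¹ * y⁻¹ * T * x)) (hx : Low x (y * T * y⁻¹ * S))
    (hy : y f = f) (hm : (T * S⁻¹) f = f) : x f = f := by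
  rcases lt_trichotomy (x f) f with h1 | h1 | h1
  · exact absurd h1 (nofixB (X := Xᵒᵈ) (x := x.dual) (T := T.dual) (y := y.dual)
      (S := S.dual) (f := f) h.dual hT.dual hS.dual (hx.dn f) hy hm)
  · exact h1
  · exact absurd h1 (nofixB h hT hS (hx.up f) hy hm)

/-- A fixed point of `x` and `l` is a fixed point of `y`. -/
theorem fix_yB {f : X} (h : FSys x T y S) (hT : Dmn T (x * y))
    (hS : Dmn S (T⁻¹ * y⁻¹ * T * x)) (hy : Low y (T * S⁻¹))
    (hx : x f = f) (hl : (y * T * y⁻¹ * S) f = f) : y f = f := by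
  refine fix_xB (x := y) (T := y * T * y⁻¹) (y := x) (S := S⁻¹) h.swap ?_ ?_ ?_ hx ?_
  · have := hT.conj y
    have e : y * (x * y) * y⁻¹ = y * x := by group
    rwa [e] at this
  · rw [h.swap_D]; exact hS.inv
  · rw [h.swap_l]; exact hy
  · rw [inv_inv]; exact hl

/-- The open cusp `x`. -/
theorem open_xB {f : X} (h : FSys x T y S) (hT : Dmn T (x * y))
    (hS : Dmn S (T⁻¹ * y⁻¹ * T * x)) (hy : Low y (T * S⁻¹))
    (hx : x f = f) (hl : (y * T * y⁻¹ * S) f = f) :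
    x f = f ∧ T f = f ∧ y f = f ∧ S f = f := by
  have h1 := fix_yB h hT hS hy hx hl
  have h2 : T f = f := by
    refine hT.fix f ?_
    show x (y f) = f
    rw [h1, hx]
  exact ⟨hx, h2, h1, fix_S h2 (hy.fix f h1)⟩

/-- The open cusp `y`. -/
theorem open_yB {f : X} (h : FSys x T y S) (hT : Dmn T (x * y))
    (hS : Dmn S (T⁻¹ * y⁻¹ * T * x)) (hx : Low x (y * T * y⁻¹ * S))
    (hy : y f = f) (hm : (T * S⁻¹) f = f) :
    x f = f ∧ T f = f ∧ y f = f ∧ S f = f := by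
  have h1 := fix_xB h hT hS hx hy hm
  have h2 : T f = f := by
    refine hT.fix f ?_
    show x (y f) = f
    rw [hy, h1]
  exact ⟨h1, h2, hy, fix_S h2 hm⟩

theorem open_TB_aux {f : X} (h : FSys x T y S) (hS : Dmn S (T⁻¹ * y⁻¹ * T * x))
    (hx : ∀ v, v < x v → (y * T * y⁻¹ * S) v ≤ x v) (hy : y f < f → y f ≤ (T * S⁻¹) f)
    (hTf : T f = f) (hz : (x * y) f = f) : ¬ f < x f := by
  intro h1
  have hyf : y f = x⁻¹ f := by
    rw [← x.injective.eq_iff, aii]; exact hz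
  have hgf : x⁻¹ f < f := inv_lt.2 h1
  have a1 : T⁻¹ (x⁻¹ f) ≤ S⁻¹ f := by
    have := hy (by rw [hyf]; exact hgf)
    rw [hyf] at this
    rw [← T.le_iff_le, aii]; exact this
  have hTg : T⁻¹ (x⁻¹ f) < f := by
    have := (T⁻¹).lt_iff_lt.mpr hgf
    rwa [inv_eq hTf] at this
  have a2 : (T⁻¹ * y⁻¹ * T * x)⁻¹ f = x⁻¹ (T⁻¹ (x⁻¹ f)) := by
    have e1 : (T⁻¹ * y⁻¹ * T * x)⁻¹ = x⁻¹ * T⁻¹ * y * T := by group
    rw [e1]
    show x⁻¹ (T⁻¹ (y (T f))) = _
    rw [hTf, hyf]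
  have a3 : x⁻¹ (T⁻¹ (x⁻¹ f)) < x⁻¹ f := (x⁻¹).lt_iff_lt.mpr hTg
  have a4 : S⁻¹ f ≤ x⁻¹ (T⁻¹ (x⁻¹ f)) := by
    rw [← a2]
    refine hS.inv.dn f ?_
    rw [a2]
    exact a3.trans hgf
  have hcx := h.cx
  have a5 : (y * T * y⁻¹ * S) (S⁻¹ (x⁻¹ f)) = x⁻¹ f := by
    show y (T (y⁻¹ (S (S⁻¹ (x⁻¹ f))))) = _
    rw [aii, ← hyf, iia, hTf]
  set l := y * T * y⁻¹ * S with hl
  have a6 : S⁻¹ (x⁻¹ f) < x (S⁻¹ (x⁻¹ f)) := by
    rw [← l.lt_iff_lt, a5]
    have : l (x (S⁻¹ (x⁻¹ f))) = x (l (S⁻¹ (x⁻¹ f))) :=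
      (DFunLike.congr_fun hcx (S⁻¹ (x⁻¹ f))).symm
    rw [this, a5, aii]; exact hgf
  have a7 := hx _ a6
  rw [a5] at a7
  have a8 : x⁻¹ (x⁻¹ f) ≤ S⁻¹ (x⁻¹ f) := by
    rw [← x.le_iff_le, aii]; exact a7
  have a9 : S⁻¹ (x⁻¹ f) < S⁻¹ f := (S⁻¹).lt_iff_lt.mpr hgf
  have b1 : x⁻¹ (x⁻¹ f) < x⁻¹ (T⁻¹ (x⁻¹ f)) := (a8.trans_lt a9).trans_le a4
  have b2 : x⁻¹ f < T⁻¹ (x⁻¹ f) := (x⁻¹).lt_iff_lt.mp b1
  exact absurd b2 (not_lt.mpr ((a1.trans a4).trans a3.le))

/-- The open cusp `T`. -/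
theorem open_TB {f : X} (h : FSys x T y S) (hS : Dmn S (T⁻¹ * y⁻¹ * T * x))
    (hx : Low x (y * T * y⁻¹ * S)) (hy : Low y (T * S⁻¹))
    (hTf : T f = f) (hz : (x * y) f = f) : x f = f ∧ T f = f ∧ y f = f ∧ S f = f := by
  have h1 : x f = f := by
    rcases lt_trichotomy (x f) f with h1 | h1 | h1
    · exact absurd h1 (open_TB_aux (X := Xᵒᵈ) (x := x.dual) (T := T.dual) (y := y.dual)
        (S := S.dual) (f := f) h.dual hS.dual hx.dn (hy.up f) hTf hz)
    · exact h1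
    · exact absurd h1 (open_TB_aux h hS hx.up (hy.dn f) hTf hz)
  have h2 : y f = f := by
    have : y f = x⁻¹ f := by
      rw [← x.injective.eq_iff, aii]; exact hz
    rw [this]; exact inv_eq h1
  exact ⟨h1, hTf, h2, fix_S hTf (hy.fix f h2)⟩

theorem open_SB_aux {f : X} (h : FSys x T y S) (hT : Dmn T (x * y))
    (hx : f < x f → (y * T * y⁻¹ * S) f ≤ x f) (hy : f < y f → (T * S⁻¹) f ≤ y f)
    (hSf : S f = f) (hD : (T⁻¹ * y⁻¹ * T * x) f = f) : ¬ f < x f := by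
  intro h1
  have h2 : y f = S (x f) := by
    rw [h.Dap] at hD
    have h3 : y⁻¹ (S (x f)) = f := by
      have := congrArg S hD
      rwa [aii, hSf] at this
    have := congrArg y h3
    rw [aii] at this
    exact this.symm
  have h3 : f < y f := by
    rw [h2]
    have := S.lt_iff_lt.mpr h1
    rwa [hSf] at this
  have h4 : y⁻¹ f < f := inv_lt.2 h3
  have h5 : x f ≤ T (y⁻¹ f) := by
    have a1 : (x * y) (y⁻¹ f) = x f := by
      show x (y (y⁻¹ f)) = x f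
      rw [aii]
    have a2 := hT.up (y⁻¹ f) (by rw [a1]; exact h4.trans h1)
    rwa [a1] at a2
  have h6 : T (y⁻¹ f) < T f := T.lt_iff_lt.mpr h4
  have h7 : T f ≤ y f := by
    have := hy h3
    change T (S⁻¹ f) ≤ y f at this
    rwa [inv_eq hSf] at this
  have h8 : y (T (y⁻¹ f)) ≤ x f := by
    have := hx h1
    change y (T (y⁻¹ (S f))) ≤ x f at this
    rwa [hSf] at this
  have h9 : y (x f) ≤ x f := (y.monotone h5).trans h8
  have h10 : x f < y (x f) := by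
    have a1 : x f < y f := (h5.trans_lt h6).trans_le h7
    exact a1.trans (y.lt_iff_lt.mpr h1)
  exact absurd h10 (not_lt.mpr h9)

/-- The open cusp `S`. -/
theorem open_SB {f : X} (h : FSys x T y S) (hT : Dmn T (x * y))
    (hx : Low x (y * T * y⁻¹ * S)) (hy : Low y (T * S⁻¹))
    (hSf : S f = f) (hD : (T⁻¹ * y⁻¹ * T * x) f = f) :
    x f = f ∧ T f = f ∧ y f = f ∧ S f = f := by
  have h1 : x f = f := by
    rcases lt_trichotomy (x f) f with h1 | h1 | h1
    · exact absurd h1 (open_SB_aux (X := Xᵒᵈ) (x := x.dual) (T := T.dual) (y := y.dual)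
        (S := S.dual) (f := f) h.dual hT.dual (hx.dn f) (hy.dn f) hSf hD)
    · exact h1
    · exact absurd h1 (open_SB_aux h hT (hx.up f) (hy.up f) hSf hD)
  have h2 : y f = f := by
    rw [h.Dap, h1, hSf] at hD
    have h3 : y⁻¹ f = f := by
      have := congrArg S hD
      rwa [aii, hSf] at this
    have := aii y f
    rwa [h3] at this
  have h3 : T f = f := by
    refine hT.fix f ?_
    show x (y f) = f
    rw [h2, h1]
  exact ⟨h1, h3, h2, hSf⟩

theorem not_upB (h : FSys x T y S) (hT : Dmn T (x * y)) (hS : Dmn S (T⁻¹ * y⁻¹ * T * x))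
    (hx : Low x (y * T * y⁻¹ * S)) (hy : Low y (T * S⁻¹)) {s : X} : ¬ s < x s := by
  intro hs
  set A : Set X := {f | f ≤ s ∧ x f = f} with hA
  set B : Set X := {f | s ≤ f ∧ x f = f} with hB
  set α := sSup A with hα
  set β := sInf B with hβ
  have xα : x α = α := by
    refine sSup_fix x (fun w hw => ?_) (fun w hw => ?_)
    · rw [hw.2]; exact hw
    · rw [symm_fix hw.2]; exact hw
  have xβ : x β = β := by
    refine sInf_fix x (fun w hw => ?_) (fun w hw => ?_)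
    · rw [hw.2]; exact hw
    · rw [symm_fix hw.2]; exact hw
  have hsx : x s ≠ s := ne_of_gt hs
  have hαs : α < s := by
    refine lt_of_le_of_ne (sSup_le fun v hv => hv.1) ?_
    intro e; rw [e] at xα; exact hsx xα
  have hsβ : s < β := by
    refine lt_of_le_of_ne (le_sInf fun v hv => hv.1) ?_
    intro e; rw [← e] at xβ; exact hsx xβ
  have hJx : ∀ v, α < v → v < β → x v ≠ v := by
    intro v h1 h2 e
    rcases le_total v s with h3 | h3
    · exact absurd (le_sSup (show v ∈ A from ⟨h3, e⟩)) (not_le.mpr h1)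
    · exact absurd (sInf_le (show v ∈ B from ⟨h3, e⟩)) (not_le.mpr h2)
  have hJy : ∀ v, α < v → v < β → y v ≠ v := fun v h1 h2 e =>
    hJx v h1 h2 (fix_xB h hT hS hx e (hy.fix v e))
  obtain ⟨-, Tα, yα, Sα⟩ := open_xB h hT hS hy xα (hx.fix α xα)
  obtain ⟨-, Tβ, yβ, Sβ⟩ := open_xB h hT hS hy xβ (hx.fix β xβ)
  -- signs
  have pos : ∀ g : X ≃o X, (∀ v, α < v → v < β → g v ≠ v) → s < g s →
      ∀ v, α < v → v < β → v < g v := by
    intro g hg hgs v h1 h2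
    by_contra hcon
    rw [not_lt] at hcon
    rcases le_total v s with h3 | h3
    · obtain ⟨t, t1, t2, t3⟩ := ivt g h3 hcon hgs
      exact hg t (lt_of_lt_of_le h1 t1) (t2.trans hsβ) t3
    · obtain ⟨t, t1, t2, t3⟩ := ivt' g h3 hcon hgs
      exact hg t (hαs.trans t1) (lt_of_le_of_lt t2 h2) t3
  have inJ : ∀ g : X ≃o X, g α = α → g β = β → ∀ v, α < v → v < β → α < g v ∧ g v < β := by
    intro g ga gb v h1 h2
    constructor
    · have := g.lt_iff_lt.mpr h1; rwa [ga] at this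
    · have := g.lt_iff_lt.mpr h2; rwa [gb] at this
  have px := pos x hJx hs
  rcases lt_or_gt_of_ne (hJy s hαs hsβ) with hys | hys
  · -- `y` moves down
    have ny : ∀ v, α < v → v < β → y v < v := by
      intro v h1 h2
      have h3 := pos y⁻¹ (fun v h1 h2 e => hJy v h1 h2 (by
        have := aii y v; rwa [e] at this)) (lt_inv.2 hys) v h1 h2
      exact lt_inv.1 h3
    have pD : ∀ w, α < w → w < β → x w < (T⁻¹ * y⁻¹ * T * x) w := by
      intro w w1 w2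
      show x w < T⁻¹ (y⁻¹ (T (x w)))
      rw [← T.lt_iff_lt, aii]
      have a1 := inJ x xα xβ w w1 w2
      have a2 := inJ T Tα Tβ (x w) a1.1 a1.2
      exact lt_inv.2 (ny _ a2.1 a2.2)
    have pDS : ∀ w, α < w → w < β → (T⁻¹ * y⁻¹ * T * x) w ≤ S w := fun w w1 w2 =>
      hS.up w ((px w w1 w2).trans (pD w w1 w2))
    have pS : ∀ w, α < w → w < β → w < S w := fun w w1 w2 =>
      ((px w w1 w2).trans (pD w w1 w2)).trans_le (pDS w w1 w2)
    have nT : ∀ w, α < w → w < β → T w < w := by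
      intro w w1 w2
      have a1 := inJ y yα yβ w w1 w2
      have a2 := inJ S⁻¹ (inv_eq Sα) (inv_eq Sβ) (y w) a1.1 a1.2
      have a3 := hx.up _ (px _ a2.1 a2.2)
      change y (T (y⁻¹ (S (S⁻¹ (y w))))) ≤ x (S⁻¹ (y w)) at a3
      rw [aii, iia] at a3
      have a4 : x (S⁻¹ (y w)) < y w := by
        have := (pD _ a2.1 a2.2).trans_le (pDS _ a2.1 a2.2)
        rwa [aii] at this
      exact y.lt_iff_lt.mp (a3.trans_lt a4)
    have nz : ∀ w, α < w → w < β → x (y w) < w ∧ T w ≤ x (y w) := by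
      intro w w1 w2
      have a1 : (x * y) w < w := hT.dn_iff (nT w w1 w2)
      exact ⟨a1, hT.dn w a1⟩
    have yS : ∀ w, α < w → w < β → y (S w) ≤ x (y w) := by
      intro w w1 w2
      have a1 := inJ S Sα Sβ w w1 w2
      have a2 := hy.dn _ (ny _ a1.1 a1.2)
      change y (S w) ≤ T (S⁻¹ (S w)) at a2
      rw [iia] at a2
      exact a2.trans (nz w w1 w2).2
    -- at the point `s`
    have b1 : S (x s) ≤ y (S (S s)) := by
      have a1 := pDS s hαs hsβ
      rw [h.Dap] at a1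
      have a2 := S.monotone a1
      rw [aii] at a2
      have a3 := y.monotone a2
      rwa [aii] at a3
    have c1 := inJ S Sα Sβ s hαs hsβ
    have b2 : y (S (S s)) ≤ x (x (y s)) :=
      (yS _ c1.1 c1.2).trans (x.monotone (yS s hαs hsβ))
    have b3 : x (x (y s)) < x s := x.lt_iff_lt.mpr (nz s hαs hsβ).1
    have c2 := inJ x xα xβ s hαs hsβ
    exact absurd (pS _ c2.1 c2.2) (not_lt.mpr ((b1.trans b2).trans b3.le))
  · -- `y` moves up
    have py := pos y hJy hys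
    have pz : ∀ w, α < w → w < β → x (y w) ≤ T w := by
      intro w w1 w2
      have a1 := inJ y yα yβ w w1 w2
      exact hT.up w ((py w w1 w2).trans (px _ a1.1 a1.2))
    have pS : ∀ w, α < w → w < β → w < S w := by
      intro w w1 w2
      have a1 := inJ S Sα Sβ w w1 w2
      have a2 := hy.up _ (py _ a1.1 a1.2)
      change T (S⁻¹ (S w)) ≤ y (S w) at a2
      rw [iia] at a2
      have a3 := inJ y yα yβ w w1 w2
      exact y.lt_iff_lt.mp (((px _ a3.1 a3.2).trans_le (pz w w1 w2)).trans_le a2)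
    have c1 := inJ x xα xβ s hαs hsβ
    have a1 := hx.up _ (px _ c1.1 c1.2)
    rw [h.lap, iia] at a1
    have c2 := inJ S Sα Sβ s hαs hsβ
    have c3 := inJ x xα xβ _ c2.1 c2.2
    have a2 : x (y (x (S s))) ≤ x (x s) := (pz _ c3.1 c3.2).trans a1
    rw [x.le_iff_le] at a2
    have a3 : x s < y (x (S s)) :=
      (x.lt_iff_lt.mpr (pS s hαs hsβ)).trans (py _ c3.1 c3.2)
    exact absurd a3 (not_lt.mpr a2)

/-- All cusps capped. -/
theorem closedB (h : FSys x T y S) (hT : Dmn T (x * y)) (hS : Dmn S (T⁻¹ * y⁻¹ * T * x))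
    (hx : Low x (y * T * y⁻¹ * S)) (hy : Low y (T * S⁻¹)) (s : X) :
    x s = s ∧ T s = s ∧ y s = s ∧ S s = s := by
  have h1 : x s = s := by
    rcases lt_trichotomy (x s) s with h1 | h1 | h1
    · exact absurd h1 (not_upB (X := Xᵒᵈ) (x := x.dual) (T := T.dual) (y := y.dual)
        (S := S.dual) h.dual hT.dual hS.dual hx.dual hy.dual (s := s))
    · exact h1
    · exact absurd h1 (not_upB h hT hS hx hy)
  exact open_xB h hT hS hy h1 (hx.fix s h1)

end pt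

end Pool.Agent.L7h76.FC
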