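import Pool.Agent.L7h76.FC.DynB
import Pool.Agent.L7h76.MT.Dir

set_option autoImplicit false

/-!
# Boundary pairs closed by `SCap` move all points in the same direction
-/

universe u v

namespace Pool.Agent.L7h76.FC

open Pool.Agent.R649.BT (Cap SCap sSup_fix sInf_fix symm_fix restr Up Dn Hf trich common)
open Pool.Agent.L7h76.MT (Dir)

variable {N : Type v} [Group N] {x e : N}

/-- If `x` and `e` do not move all points of an invariant interval in opposite directions. -/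
theorem no_opp (closed : ∀ (X : Type u) [CompleteLinearOrder X] (ρ : N →* (X ≃o X)),
      SCap (ρ x) (ρ e) → ∀ g p, ρ g p = p) (hc : Commute x e)
    {X : Type u} [CompleteLinearOrder X]
    (ρ : N →* (X ≃o X)) {α β v : X} (hα : ∀ g, ρ g α = α) (hβ : ∀ g, ρ g β = β) (h1 : α < v)
    (h2 : v < β)
    (hh : (Up α β (ρ x) ∧ Dn α β (ρ e)) ∨ (Dn α β (ρ x) ∧ Up α β (ρ e))) : False := by
  haveI : Fact (α ≤ β) := ⟨(h1.trans h2).le⟩
  let ρ' : N →* (Set.Icc α β ≃o Set.Icc α β) := restr ρ hα hβ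
  have ends : ∀ z : Set.Icc α β, (α < z.1 ∧ z.1 < β) ∨ ∀ g, ρ' g z = z := by
    intro z
    rcases eq_or_lt_of_le z.2.1 with he | hl
    · right; intro g
      apply Subtype.ext
      show ρ g z.1 = z.1
      rw [← he, hα]
    · rcases eq_or_lt_of_le z.2.2 with he | hr
      · right; intro g
        apply Subtype.ext
        show ρ g z.1 = z.1
        rw [he, hβ]
      · exact Or.inl ⟨hl, hr⟩
  have hcc : ∀ z : X, ρ x (ρ e z) = ρ e (ρ x z) := by
    intro z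
    rw [← RelIso.mul_apply, ← RelIso.mul_apply, ← map_mul, ← map_mul, hc.eq]
  have hd : SCap (ρ' x) (ρ' e) := by
    refine ⟨fun z => Subtype.ext (hcc z.1), fun z hz => ?_, fun z hz => ?_, fun z hz => ?_⟩
    · rcases ends z with he | he
      · rcases hh with ⟨u1, u2⟩ | ⟨u1, u2⟩
        · exact u2 z.1 he.1 he.2
        · have hz' : z.1 < ρ x z.1 := hz
          exact absurd (u1 z.1 he.1 he.2) (not_lt.mpr hz'.le)
      · rw [he] at hz; exact absurd hz (lt_irrefl _)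
    · rcases ends z with he | he
      · rcases hh with ⟨u1, u2⟩ | ⟨u1, u2⟩
        · have hz' : ρ x z.1 < z.1 := hz
          exact absurd (u1 z.1 he.1 he.2) (not_lt.mpr hz'.le)
        · exact u2 z.1 he.1 he.2
      · rw [he] at hz; exact absurd hz (lt_irrefl _)
    · rcases ends z with he | he
      · have hz' : ρ x z.1 = z.1 := congrArg Subtype.val hz
        rcases hh with ⟨u1, u2⟩ | ⟨u1, u2⟩
        · exact absurd hz' (u1 z.1 he.1 he.2).ne'
        · exact absurd hz' (u1 z.1 he.1 he.2).ne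
      · exact he e
  have h3 := closed (Set.Icc α β) ρ' hd x ⟨v, h1.le, h2.le⟩
  have h4 : ρ x v = v := congrArg Subtype.val h3
  rcases hh with ⟨u1, u2⟩ | ⟨u1, u2⟩
  · exact absurd h4 (u1 v h1 h2).ne'
  · exact absurd h4 (u1 v h1 h2).ne

section alg
variable {X : Type u} [CompleteLinearOrder X] {α β : X}

theorem inv_up {g : X ≃o X} (h : Dn α β g⁻¹) (hα : g α = α) (hβ : g β = β) : Up α β g := by
  have := Dn.inv (g := g⁻¹) (inv_eq hα) (inv_eq hβ) h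
  rwa [inv_inv] at this

theorem hf_inv {g : X ≃o X} (h : Hf α β g) : Hf α β g⁻¹ := by
  obtain ⟨w, w1, w2, w3⟩ := h
  exact ⟨w, w1, w2, inv_eq w3⟩

/-- `P` moves all points up, `Q` does not move all points down. -/
theorem up_words {P Q : X ≃o X} (hc : Commute P Q) (Pα : P α = α) (Pβ : P β = β) (Qα : Q α = α)
    (Qβ : Q β = β) (hP : Up α β P) (hQ : ¬ Dn α β Q) {i j : ℤ} (hi : 0 < i) (hj : 0 ≤ j) :
    Up α β (P ^ i * Q ^ j) := Up.cone hc Pα Pβ Qα Qβ hP hQ hi hj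

theorem dn_words {P Q : X ≃o X} (hc : Commute P Q) (Pα : P α = α) (Pβ : P β = β) (Qα : Q α = α)
    (Qβ : Q β = β) (hP : Dn α β P) (hQ : ¬ Up α β Q) {i j : ℤ} (hi : 0 < i) (hj : 0 ≤ j) :
    Dn α β (P ^ i * Q ^ j) := by
  have h1 : Up α β (P⁻¹ ^ i * Q⁻¹ ^ j) := by
    refine Up.cone hc.inv_inv (inv_eq Pα) (inv_eq Pβ) (inv_eq Qα) (inv_eq Qβ)
      (hP.inv Pα Pβ) (fun h => hQ (inv_up h Qα Qβ)) hi hj
  have h2 : P⁻¹ ^ i * Q⁻¹ ^ j = (P ^ i * Q ^ j)⁻¹ := by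
    rw [inv_zpow, inv_zpow, ← mul_inv_rev, (hc.zpow_zpow i j).eq]
  rw [h2] at h1
  intro w w1 w2
  exact lt_inv.1 (h1 w w1 w2)

end alg

theorem key_scap (hc : Commute x e)
    (fix : ∀ (X : Type u) [CompleteLinearOrder X] (ρ : N →* (X ≃o X)) (p : X), ρ x p = p →
      ρ e p = p → ∀ g, ρ g p = p)
    (closed : ∀ (X : Type u) [CompleteLinearOrder X] (ρ : N →* (X ≃o X)),
      SCap (ρ x) (ρ e) → ∀ g p, ρ g p = p)
    {X : Type u} [CompleteLinearOrder X] (ρ : N →* (X ≃o X)) (v : X) :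
    (∀ g, ρ g v = v) ∨ (∀ A B : ℕ, 1 ≤ A → 1 ≤ B → v < ρ (x ^ A * e ^ B) v) ∨
      (∀ A B : ℕ, 1 ≤ A → 1 ≤ B → ρ (x ^ A * e ^ B) v < v) := by
  by_cases hv : ∀ g, ρ g v = v
  · exact Or.inl hv
  right
  set S : Set X := {p | p ≤ v ∧ ∀ g, ρ g p = p} with hS
  set T : Set X := {p | v ≤ p ∧ ∀ g, ρ g p = p} with hT
  have hα : ∀ g, ρ g (sSup S) = sSup S := fun g => by
    refine sSup_fix (ρ g) (fun w hw => ?_) (fun w hw => ?_)
    · rw [hw.2]; exact hw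
    · rw [symm_fix (hw.2 g)]; exact hw
  have hβ : ∀ g, ρ g (sInf T) = sInf T := fun g => by
    refine sInf_fix (ρ g) (fun w hw => ?_) (fun w hw => ?_)
    · rw [hw.2]; exact hw
    · rw [symm_fix (hw.2 g)]; exact hw
  have h1 : sSup S < v := by
    refine lt_of_le_of_ne (sSup_le fun w hw => hw.1) fun e => ?_
    rw [e] at hα; exact hv hα
  have h2 : v < sInf T := by
    refine lt_of_le_of_ne (le_sInf fun w hw => hw.1) fun e => ?_
    rw [← e] at hβ; exact hv hβ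
  have hcc : Commute (ρ x) (ρ e) := hc.map ρ
  have nc : ¬ (Hf (sSup S) (sInf T) (ρ x) ∧ Hf (sSup S) (sInf T) (ρ e)) := by
    rintro ⟨⟨p, p1, p2, p3⟩, ⟨q, q1, q2, q3⟩⟩
    obtain ⟨w, w1, w2, w3, w4⟩ := common (P := ρ x) (Q := ρ e)
      (fun v => DFunLike.congr_fun hcc.eq v) p1 p2 q1 q2 p3 q3
    have w5 := fix X ρ w w3 w4
    rcases le_total w v with w6 | w6
    · exact absurd (le_sSup (show w ∈ S from ⟨w6, w5⟩)) (not_le.mpr w1)
    · exact absurd (sInf_le (show w ∈ T from ⟨w6, w5⟩)) (not_le.mpr w2)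
  have no := fun hh => no_opp closed hc ρ hα hβ h1 h2 hh
  have ew : ∀ A B : ℕ, ρ (x ^ A * e ^ B) = ρ x ^ (A : ℤ) * ρ e ^ (B : ℤ) := by
    intro A B; rw [map_mul, map_pow, map_pow, zpow_natCast, zpow_natCast]
  have ew' : ∀ A B : ℕ, ρ (x ^ A * e ^ B) = ρ e ^ (B : ℤ) * ρ x ^ (A : ℤ) := by
    intro A B; rw [ew, (hcc.zpow_zpow _ _).eq]
  have upup : Up (sSup S) (sInf T) (ρ x) → ¬ Dn (sSup S) (sInf T) (ρ e) →
      ∀ A B : ℕ, 1 ≤ A → 1 ≤ B → v < ρ (x ^ A * e ^ B) v := fun u1 u2 A B hA hB => by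
    rw [ew]
    exact up_words hcc (hα x) (hβ x) (hα e) (hβ e) u1 u2 (by omega) (by omega) v h1 h2
  have dndn : Dn (sSup S) (sInf T) (ρ x) → ¬ Up (sSup S) (sInf T) (ρ e) →
      ∀ A B : ℕ, 1 ≤ A → 1 ≤ B → ρ (x ^ A * e ^ B) v < v := fun u1 u2 A B hA hB => by
    rw [ew]
    exact dn_words hcc (hα x) (hβ x) (hα e) (hβ e) u1 u2 (by omega) (by omega) v h1 h2
  have upup' : Up (sSup S) (sInf T) (ρ e) → ¬ Dn (sSup S) (sInf T) (ρ x) →
      ∀ A B : ℕ, 1 ≤ A → 1 ≤ B → v < ρ (x ^ A * e ^ B) v := fun u1 u2 A B hA hB => by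
    rw [ew']
    exact up_words hcc.symm (hα e) (hβ e) (hα x) (hβ x) u1 u2 (by omega) (by omega) v h1 h2
  have dndn' : Dn (sSup S) (sInf T) (ρ e) → ¬ Up (sSup S) (sInf T) (ρ x) →
      ∀ A B : ℕ, 1 ≤ A → 1 ≤ B → ρ (x ^ A * e ^ B) v < v := fun u1 u2 A B hA hB => by
    rw [ew']
    exact dn_words hcc.symm (hα e) (hβ e) (hα x) (hβ x) u1 u2 (by omega) (by omega) v h1 h2
  rcases trich (α := sSup S) (β := sInf T) (ρ x) with h | h | h
  · exact Or.inl (upup h fun h' => no (Or.inl ⟨h, h'⟩))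
  · exact Or.inr (dndn h fun h' => no (Or.inr ⟨h, h'⟩))
  · obtain ⟨p, p1, p2, p3⟩ := h
    rcases trich (α := sSup S) (β := sInf T) (ρ e) with h' | h' | h'
    · exact Or.inl (upup' h' fun h'' => absurd p3 (h'' p p1 p2).ne)
    · exact Or.inr (dndn' h' fun h'' => absurd p3 (h'' p p1 p2).ne')
    · exact absurd ⟨⟨p, p1, p2, p3⟩, h'⟩ nc

/-- Boundary pairs closed by `SCap`. -/
theorem dir_of_scap (hc : Commute x e)
    (fix : ∀ (X : Type u) [CompleteLinearOrder X] (ρ : N →* (X ≃o X)) (p : X), ρ x p = p →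
      ρ e p = p → ∀ g, ρ g p = p)
    (closed : ∀ (X : Type u) [CompleteLinearOrder X] (ρ : N →* (X ≃o X)),
      SCap (ρ x) (ρ e) → ∀ g p, ρ g p = p) :
    Dir.{u} N {g | ∃ A B : ℕ, 1 ≤ A ∧ 1 ≤ B ∧ g = x ^ A * e ^ B} := by
  refine ⟨?_, ?_, ?_⟩
  · rintro _ ⟨A, B, -, -, rfl⟩ _ ⟨C, D, -, -, rfl⟩
    have c1 : Commute (x ^ A) (x ^ C * e ^ D) :=
      ((Commute.refl x).pow_pow A C).mul_right (hc.pow_pow A D)
    have c2 : Commute (e ^ B) (x ^ C * e ^ D) :=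
      (hc.symm.pow_pow B C).mul_right ((Commute.refl e).pow_pow B D)
    exact c1.mul_left c2
  · rintro X _ ρ _ ⟨A, B, hA, hB, rfl⟩ _ ⟨C, D, hC, hD, rfl⟩ p hp
    rcases key_scap hc fix closed ρ p with h | h | h
    · rw [h] at hp; exact absurd hp (lt_irrefl _)
    · exact h C D hC hD
    · exact absurd hp (not_lt.mpr (h A B hA hB).le)
  · rintro X _ ρ _ ⟨A, B, hA, hB, rfl⟩ p hp
    rcases key_scap hc fix closed ρ p with h | h | h
    · exact h
    · exact absurd hp (h A B hA hB).ne'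
    · exact absurd hp (h A B hA hB).ne

end Pool.Agent.L7h76.FC
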